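import Mathlib
import Pool.Agent.H63.Fishburn

/-!
# Joint symmetry of left-to-right and right-to-left maxima on Fishburn permutations

`𝒜_n` is the set of permutations `π` of size `n` with no indices `i, j, k` such that
`i + 1 = j < k` and `π i + 1 = π k < π j`.  We prove that `lrmax` and `rlmax` have symmetric
joint distribution on `𝒜_n`, for every `n ≥ 1`.

The proof encodes the insertion of a new maximum by a machine acting on two stacks and solves
the resulting linear system with the kernel method, in truncated form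
(see `Pool/Agent/H63/Fishburn.lean`).
-/

set_option autoImplicit false

namespace Pool.Agent.Results.MP_0ade3f_co.JointSymmetry

open H63Fish

/-- `π` lies in `𝒜_n`: there are no indices `i, j, k` with `i + 1 = j < k` and
`π i + 1 = π k < π j`. -/
def InA {n : ℕ} (π : Equiv.Perm (Fin n)) : Prop :=
  ¬ ∃ i j k : Fin n, (i : ℕ) + 1 = (j : ℕ) ∧ j < k ∧ ((π i : Fin n) : ℕ) + 1 = ((π k : Fin n) : ℕ) ∧
    π k < π j

/-- The number of left-to-right maxima of `π`. -/
def lrmax {n : ℕ} (π : Equiv.Perm (Fin n)) : ℕ :=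
  (Finset.univ.filter fun i : Fin n => ∀ m, m < i → π m < π i).card

/-- The number of right-to-left maxima of `π`. -/
def rlmax {n : ℕ} (π : Equiv.Perm (Fin n)) : ℕ :=
  (Finset.univ.filter fun i : Fin n => ∀ m, i < m → π m < π i).card

theorem inA_iff {n : ℕ} (π : Equiv.Perm (Fin n)) : InA π ↔ Av (vals π) := by
  rw [vals, Av_ofFn]
  constructor
  · intro h i j k h1 h2 h3 h4
    exact h ⟨i, j, k, h1, h2, h3, h4⟩
  · rintro h ⟨i, j, k, h1, h2, h3, h4⟩
    exact h i j k h1 h2 h3 h4

theorem lrmax_eq {n : ℕ} (π : Equiv.Perm (Fin n)) : lrmax π = rlc (vals π).reverse := by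
  rw [vals, lrc_ofFn, lrmax]
  rfl

theorem rlmax_eq {n : ℕ} (π : Equiv.Perm (Fin n)) : rlmax π = rlc (vals π) := by
  rw [vals, rlc_ofFn, rlmax]
  rfl

theorem ncard_eq (N a b : ℕ) :
    {π : Equiv.Perm (Fin (N + 1)) | InA π ∧ lrmax π = a ∧ rlmax π = b}.ncard
      = (statesN N).countP (fun s => s.1 = a ∧ s.2.2.1 = b) := by
  classical
  rw [← countP_states]
  have h := card_perm_eq N (fun l => rlc l.reverse = a ∧ rlc l = b)
  simp only [← inA_iff, ← lrmax_eq, ← rlmax_eq] at h
  rw [Set.ncard_eq_toFinset_card']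
  refine Eq.trans ?_ (h.trans ?_)
  · congr 1
    ext π
    simp
  · apply List.countP_congr
    intro z _
    simp

/-- **Joint symmetry of `lrmax` and `rlmax` on `𝒜_n`**: for every `n ≥ 1` and all integers
`a, b`, as many `π ∈ 𝒜_n` have `lrmax π = a, rlmax π = b` as have `lrmax π = b, rlmax π = a`. -/
theorem result : ∀ n : ℕ, 1 ≤ n → ∀ a b : ℤ,
    {π : Equiv.Perm (Fin n) | InA π ∧ (lrmax π : ℤ) = a ∧ (rlmax π : ℤ) = b}.ncard
      = {π : Equiv.Perm (Fin n) | InA π ∧ (lrmax π : ℤ) = b ∧ (rlmax π : ℤ) = a}.ncard := by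
  intro n hn a b
  obtain ⟨N, rfl⟩ : ∃ N, n = N + 1 := ⟨n - 1, by omega⟩
  by_cases ha : 0 ≤ a
  · by_cases hb : 0 ≤ b
    · obtain ⟨a, rfl⟩ := Int.eq_ofNat_of_zero_le ha
      obtain ⟨b, rfl⟩ := Int.eq_ofNat_of_zero_le hb
      simp only [Nat.cast_inj]
      rw [ncard_eq, ncard_eq, count_symm]
    · have h1 : {π : Equiv.Perm (Fin (N + 1)) | InA π ∧ (lrmax π : ℤ) = a ∧ (rlmax π : ℤ) = b}
          = ∅ := by
        ext π
        simp only [Set.mem_ofPred_eq, Set.mem_empty_iff_false, iff_false]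
        rintro ⟨_, _, h⟩
        omega
      have h2 : {π : Equiv.Perm (Fin (N + 1)) | InA π ∧ (lrmax π : ℤ) = b ∧ (rlmax π : ℤ) = a}
          = ∅ := by
        ext π
        simp only [Set.mem_ofPred_eq, Set.mem_empty_iff_false, iff_false]
        rintro ⟨_, h, _⟩
        omega
      rw [h1, h2]
  · have h1 : {π : Equiv.Perm (Fin (N + 1)) | InA π ∧ (lrmax π : ℤ) = a ∧ (rlmax π : ℤ) = b}
        = ∅ := by
      ext π
      simp only [Set.mem_ofPred_eq, Set.mem_empty_iff_false, iff_false]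
      rintro ⟨_, h, _⟩
      omega
    have h2 : {π : Equiv.Perm (Fin (N + 1)) | InA π ∧ (lrmax π : ℤ) = b ∧ (rlmax π : ℤ) = a}
        = ∅ := by
      ext π
      simp only [Set.mem_ofPred_eq, Set.mem_empty_iff_false, iff_false]
      rintro ⟨_, _, h⟩
      omega
    rw [h1, h2]

end Pool.Agent.Results.MP_0ade3f_co.JointSymmetry
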